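import Pool.Agent.W528.HB.Stm

/-!
# The residue field of `PadicAlgCl c` is algebraically closed
-/

set_option autoImplicit false

namespace Pool.Agent.W999.HB.TP

open Polynomial

theorem main : Pool.Agent.W528.HB.TP := by
  intro c hc
  let v : Valuation (PadicAlgCl c) NNReal := Valued.v
  have hv : ∀ x : PadicAlgCl c, ((v x : NNReal) : ℝ) = ‖x‖ := fun x => rfl
  let A : ValuationSubring (PadicAlgCl c) := v.valuationSubring
  have hA : ∀ x, x ∈ A ↔ ‖x‖ ≤ 1 := by
    intro x
    rw [Valuation.mem_valuationSubring_iff, ← hv, ← NNReal.coe_one, NNReal.coe_le_coe]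
  have hmax : ∀ x : A, x ∈ IsLocalRing.maximalIdeal A ↔ ‖(x : PadicAlgCl c)‖ < 1 := by
    intro x
    rw [A.valuation_lt_one_iff, ← (Valuation.isEquiv_valuation_valuationSubring v).lt_one_iff_lt_one,
      ← hv, ← NNReal.coe_one, NNReal.coe_lt_coe]
  let res : A.toSubring →+* IsLocalRing.ResidueField A := IsLocalRing.residue A
  have hres : ∀ x : A, IsLocalRing.residue A x = 0 ↔ ‖(x : PadicAlgCl c)‖ < 1 := by
    intro x
    rw [IsLocalRing.residue_eq_zero_iff, hmax]
  refine ⟨IsLocalRing.ResidueField A, inferInstance, A.toSubring, res, ?_, ?_, ?_, ?_⟩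
  · refine IsAlgClosed.of_exists_root _ ?_
    intro p hp hirr
    have hlift : p ∈ lifts (IsLocalRing.residue A) := by
      rw [mem_lifts]
      exact Polynomial.map_surjective _ IsLocalRing.residue_surjective p
    obtain ⟨q, hq, hdeg, hmon⟩ := lifts_and_degree_eq_and_monic hlift hp
    have hdeg2 : (q.map (algebraMap A (PadicAlgCl c))).degree ≠ 0 := by
      rw [hmon.degree_map, hdeg]
      exact hirr.degree_pos.ne'
    obtain ⟨x, hx⟩ := IsAlgClosed.exists_root _ hdeg2
    have hx1 : eval₂ (algebraMap A (PadicAlgCl c)) x q = 0 := by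
      rw [← eval_map]; exact hx
    have hint : IsIntegral A x := ⟨q, hmon, hx1⟩
    obtain ⟨y, hy⟩ := IsIntegrallyClosed.isIntegral_iff.1 hint
    refine ⟨IsLocalRing.residue A y, ?_⟩
    rw [← hq, eval_map, eval₂_hom]
    have : algebraMap A (PadicAlgCl c) (eval y q) = 0 := by
      rw [← hx1, ← hy, eval₂_hom]
    have h0 : eval y q = 0 := by
      have hinj : Function.Injective (algebraMap A (PadicAlgCl c)) :=
        IsFractionRing.injective A (PadicAlgCl c)
      exact hinj (by rw [this, map_zero])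
    rw [h0, map_zero]
  · obtain ⟨q, hq⟩ := CharP.exists (IsLocalRing.ResidueField A)
    have h1 : ((c : ℕ) : IsLocalRing.ResidueField A) = 0 := by
      have h2 : ((c : ℕ) : IsLocalRing.ResidueField A) = IsLocalRing.residue A ((c : ℕ) : A) := by
        rw [map_natCast]
      rw [h2, hres]
      have h3 : (((c : ℕ) : A) : PadicAlgCl c) = ((c : ℕ) : PadicAlgCl c) := rfl
      rw [h3, ← hv]
      have h4 := PadicAlgCl.valuation_p c
      change ((Valued.v ((c : ℕ) : PadicAlgCl c) : NNReal) : ℝ) < 1
      rw [h4, NNReal.coe_div, NNReal.coe_one, NNReal.coe_natCast, div_lt_one]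
      · exact_mod_cast hc.out.one_lt
      · exact_mod_cast hc.out.pos
    have h2 := (CharP.cast_eq_zero_iff (IsLocalRing.ResidueField A) q c).1 h1
    rcases (Nat.dvd_prime hc.out).1 h2 with h3 | h3
    · exact absurd h3 (CharP.char_ne_one (IsLocalRing.ResidueField A) q)
    · exact CharP.mk fun x => by rw [hq.cast_eq_zero_iff x, h3]
  · exact fun x => hA x
  · intro x
    exact hres x

end Pool.Agent.W999.HB.TP
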